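import Pool.Agent.Lib.helper26.BnG

namespace Pool.Agent.Results.MP_8219fb_pr.SqrtD
open Pool.Agent.Lib.helper26.BnG

/-- the least `k ∈ {1, …, 2d}` for which the bidirectional graph percolates -/
noncomputable def kc (d : ℕ) : ℕ := sInf {k | 1 ≤ k ∧ k ≤ 2 * d ∧ 0 < θ k d}

theorem result (d : ℕ) (hd : 25 ≤ d) : √d < kc d ∧ kc d ≤ 5 * √d ∧ 0 < θ (kc d) d := by
  have s : 5 ≤ d.sqrt := Nat.le_sqrt.2 hd
  have s1 := Nat.sqrt_le d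
  have s2 := Nat.lt_succ_sqrt d
  have h : 4 * d.sqrt + 5 ∈ {k | 1 ≤ k ∧ k ≤ 2 * d ∧ 0 < θ k d} := by
    have : 4 * d.sqrt + 5 ≤ 2 * d := by nlinarith
    refine ⟨by omega, this, upper (by omega) this ?_⟩
    rw [show 4 * d.sqrt + 5 - 1 = 4 * d.sqrt.succ by omega]; nlinarith
  obtain ⟨-, a, b⟩ := Nat.sInf_mem ⟨_, h⟩
  refine ⟨Real.sqrt_lt' ?_ |>.2 ?_, ?_, b⟩
  · exact Nat.cast_pos.2 (Nat.sInf_mem ⟨_, h⟩).1
  · exact_mod_cast not_le.1 fun hh => b.ne' (lower a hh)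
  · have : (kc d : ℝ) ≤ 5 * d.sqrt := by exact_mod_cast (Nat.sInf_le h).trans (by omega)
    exact this.trans (by gcongr; exact Real.nat_sqrt_le_real_sqrt)

end Pool.Agent.Results.MP_8219fb_pr.SqrtD
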